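import Pool.Agent.Helper64.PQ.Goals
import Pool.Agent.Helper87.Big.C3E2
import Pool.Agent.Helper90.BigC12

set_option autoImplicit false

/-!
Project PQ (MP_2b9d24_gt), packet E5: words in the two planar twists.
-/

open Topology Filter Set Metric

namespace Pool.Agent.Helper35.PQ

open Pool.Agent.Helper78.BigMap Pool.Agent.Helper64.PQ

/-- The identity off the marked disc and near the marked points, orientation preserving. -/
def Good (T : ℂ ≃ₜ ℂ) : Prop :=
  (∀ z, 7/10 ≤ ‖z‖ → T z = z) ∧ (∀ e ∈ inC E3, ∀ z, ‖z - e‖ ≤ 1/25 → T z = z) ∧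
    ∀ z, PosAt T z

theorem good_mul {S T : ℂ ≃ₜ ℂ} (hS : Good S) (hT : Good T) : Good (S * T) := by
  refine ⟨fun z hz => ?_, fun e he z hz => ?_, fun z => ?_⟩
  · change S (T z) = z
    rw [hT.1 z hz, hS.1 z hz]
  · change S (T z) = z
    rw [hT.2.1 e he z hz, hS.2.1 e he z hz]
  · exact Pool.Agent.Helper90.Big.goalC1 T S z (hT.2.2 z) T.continuous.continuousAt
      (hS.2.2 (T z)) (Eventually.of_forall fun w => S.continuous.continuousAt)
      (Eventually.of_forall fun w hw => S.injective hw)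
      (Eventually.of_forall fun w => T.continuous.continuousAt)

theorem good_one : Good (1 : ℂ ≃ₜ ℂ) := by
  refine ⟨fun z _ => rfl, fun e _ z _ => rfl, fun z => ?_⟩
  have h := Pool.Agent.Helper90.Big.goalC2 (fun _ z => z) continuous_snd
    (fun _ => Function.injective_id) (fun z => rfl) 0 z
  exact h

theorem good_pow {S : ℂ ≃ₜ ℂ} (hS : Good S) (n : ℕ) : Good (S ^ n) := by
  induction n with
  | zero => rw [pow_zero]; exact good_one
  | succ n ih => rw [pow_succ]; exact good_mul ih hS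

theorem good_word {x y : ℂ ≃ₜ ℂ} (hx : Good x) (hy : Good y) (N : ℕ → ℕ) (n : ℕ) :
    Good (word x y N n) := by
  induction n with
  | zero => exact hy
  | succ n ih => exact good_mul (good_mul ih (good_pow hx _)) hy

theorem good_tw (p : ℝ) (hp : |p| = 1/4) (T : ℂ ≃ₜ ℂ)
    (h : ∀ z : ℂ, (‖z - p‖ ≤ 3/10 ∨ 2/5 ≤ ‖z - p‖) → T z = z) (hT : ∀ z, PosAt T z) :
    Good T := by
  have hpn : ‖(p : ℂ)‖ = 1/4 := by rw [Complex.norm_real, Real.norm_eq_abs, hp]
  refine ⟨fun z hz => h z (Or.inr ?_), ?_, hT⟩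
  · have := norm_sub_norm_le z (p : ℂ)
    rw [hpn] at this
    linarith
  · rintro _ ⟨e, he, rfl⟩ z hz
    have h1 : ‖z - (p : ℂ)‖ ≤ ‖z - (e : ℂ)‖ + ‖(e : ℂ) - p‖ := by
      have := norm_add_le (z - (e : ℂ)) ((e : ℂ) - p)
      rwa [sub_add_sub_cancel] at this
    have h2 : ‖(e : ℂ) - p‖ ≤ ‖z - (p : ℂ)‖ + ‖z - (e : ℂ)‖ := by
      have := norm_sub_le (z - (p : ℂ)) (z - (e : ℂ))
      rwa [sub_sub_sub_cancel_left] at this
    have h3 : ‖(e : ℂ) - p‖ = |e - p| := by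
      rw [← Complex.ofReal_sub, Complex.norm_real, Real.norm_eq_abs]
    rw [h3] at h1 h2
    have hz' : ‖z - (e : ℂ)‖ ≤ 1/25 := hz
    have key : |e - p| ≤ 1/4 ∨ 1/2 ≤ |e - p| := by
      have he' : e = -1/4 ∨ e = 0 ∨ e = 1/4 := he
      rcases abs_eq (by norm_num : (0 : ℝ) ≤ 1/4) |>.1 hp with rfl | rfl <;>
        rcases he' with rfl | rfl | rfl <;> norm_num [abs_of_pos, abs_of_neg, abs_of_nonneg]
    rcases key with k | k
    · exact h z (Or.inl (by linarith))
    · exact h z (Or.inr (by linarith))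

/-- Goal E5 with the products taken in the group of homeomorphisms. -/
def GoalE5' : Prop :=
  ∃ tx ty : ℂ ≃ₜ ℂ, (∀ z, tx z = twx z) ∧ (∀ z, ty z = twy z) ∧
    ∀ (N : ℕ → ℕ) (n : ℕ), (∀ z, 7/10 ≤ ‖z‖ → (word tx ty N n) z = z) ∧
      (∀ e ∈ inC E3, ∀ z, ‖z - e‖ ≤ 1/25 → (word tx ty N n) z = z) ∧
      ∀ z, PosAt (⇑(word tx ty N n)) z

theorem goalE5' : GoalE5' := by
  obtain ⟨tx, hx1, hx2, -, hx4⟩ := Pool.Agent.Helper87.Big.goalC3 Pool.Agent.Helper90.Big.goalC2
    (-1/4) (3/10) (2/5) (by norm_num) (by norm_num)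
  obtain ⟨ty, hy1, hy2, -, hy4⟩ := Pool.Agent.Helper87.Big.goalC3 Pool.Agent.Helper90.Big.goalC2
    (1/4) (3/10) (2/5) (by norm_num) (by norm_num)
  have gx : Good tx := by
    refine good_tw (-1/4) (by norm_num [abs_of_neg]) tx (fun z hz => hx2 z ?_) hx4
    push_cast at hz
    exact hz
  have gy : Good ty := by
    refine good_tw (1/4) (by norm_num [abs_of_pos]) ty (fun z hz => hy2 z ?_) hy4
    push_cast at hz
    exact hz
  exact ⟨tx, ty, hx1, hy1, fun N n => good_word gx gy N n⟩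

theorem goalE5 : GoalE5 := goalE5'

end Pool.Agent.Helper35.PQ
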